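import Pool.Agent.H736Z.Heller.Main

/-!
# The shifted Heller constant is at most the Heller constant

If `A` is an integer `m × n` matrix with pairwise distinct columns and `t` is any real vector such
that every square submatrix of `t + A` has determinant in `[-1,1]`, then `n ≤ m² + m + 1`.

Proof: there is always a row whose deletion identifies at most `2m` columns.
-/

namespace Pool.Agent.Results.MP_ba6ea3_co.AShiftedHeller

theorem result (m n : ℕ) (t : Fin m → ℝ) (A : Matrix (Fin m) (Fin n) ℤ)
    (hA : ∀ j j' : Fin n, (∀ i, A i j = A i j') → j = j')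
    (h : ∀ (k : ℕ) (r : Fin k ↪ Fin m) (c : Fin k ↪ Fin n),
      |((Matrix.of fun i j => t i + (A i j : ℝ)).submatrix r c).det| ≤ 1) :
    n ≤ m ^ 2 + m + 1 :=
  Pool.Agent.H736Z.Heller.column_bound m n t A hA h

end Pool.Agent.Results.MP_ba6ea3_co.AShiftedHeller
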